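import Pool.Agent.H19.AroSp

/-! A Lindelöf `ω`-stable space whose square is not Lindelöf. -/

namespace Pool.Agent.Results.MP_b69c94_gt.Square

open Set Pool.Agent.H19.Om

universe u v

/-- Cosmic spaces: spaces with a countable network. -/
def Cosmic (Y : Type u) [TopologicalSpace Y] : Prop :=
  ∃ N : Set (Set Y), N.Countable ∧ ∀ U : Set Y, IsOpen U → ∃ N' ⊆ N, U = ⋃₀ N'

/-- `ω`-stable spaces. -/
def OmegaStable (X : Type) [TopologicalSpace X] : Prop :=
  ∀ (Y : Type u) [TopologicalSpace Y] [T35Space Y] (f : X → Y), Continuous f → f.Surjective →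
    ∀ (Z : Type v) [TopologicalSpace Z] [T35Space Z] [SecondCountableTopology Z] (g : Y → Z),
      Continuous g → g.Bijective → Cosmic Y

theorem result : ∃ (X : Type) (_ : TopologicalSpace X), T35Space X ∧ LindelofSpace X ∧
    OmegaStable.{u, v} X ∧ ¬ LindelofSpace (X × X) ∧ ¬ LindelofSpace (Fin 2 → X) := by
  obtain ⟨T⟩ := exists_tree
  obtain ⟨A, B, hA, hB, hAB⟩ := exists_split
  have h1 : ∀ b : Bool, Pos (cond b B A) := fun b => by cases b <;> assumption
  have h2 := T.X_sq (A := fun b => cond b B A) hAB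
  refine ⟨T.X fun b => cond b B A, inferInstance, inferInstance, T.X_lindelof h1,
    fun Y _ _ f hf hf' Z _ _ _ g hg hg' => ?_, h2, fun h => h2
      (LindelofSpace.of_continuous_surjective (Homeomorph.finTwoArrow).continuous
        (Homeomorph.finTwoArrow).surjective)⟩
  letI := TopologicalSpace.metrizableSpaceMetric Z
  have h3 := T.X_simple h1 (hg.comp hf)
  rw [(hg'.2.comp hf').range_eq, countable_univ_iff] at h3
  haveI := hg'.1.countable
  exact ⟨range fun y => {y}, countable_range _, fun U _ => ⟨(fun y => {y}) '' U,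
    image_subset_range _ _, by simp⟩⟩

end Pool.Agent.Results.MP_b69c94_gt.Square
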